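import Pool.Agent.H76.HK.EP
import Pool.Agent.H23.GA.Targets

/-!
Module RO: the primes dividing a value of a polynomial.
-/

set_option autoImplicit false

open Filter Topology NumberField Polynomial

namespace Pool.Agent.H22.GA

open Pool.Agent.H25.HK

section

lemma re_log_le {z : ℂ} (hz : ‖z‖ ≤ 1 / 2) : (-Complex.log (1 - z)).re ≤ z.re + ‖z‖ ^ 2 := by
  have h1 : ‖-z‖ < 1 := by rw [norm_neg]; linarith
  have h2 := Complex.norm_log_one_add_sub_self_le h1
  have h3 : ‖Complex.log (1 + -z) - -z‖ ≤ ‖z‖ ^ 2 := by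
    refine h2.trans ?_
    rw [norm_neg]
    have h4 : (1 - ‖z‖)⁻¹ ≤ 2 := by
      rw [inv_le_comm₀ (by linarith) (by norm_num)]
      linarith
    have h5 : 0 ≤ ‖z‖ ^ 2 := by positivity
    nlinarith
  have h6 := Complex.abs_re_le_norm (Complex.log (1 + -z) - -z)
  have h7 : (Complex.log (1 + -z) - -z).re = (Complex.log (1 - z)).re + z.re := by
    rw [← sub_eq_add_neg 1 z]
    simp
  rw [h7] at h6
  have h8 := (abs_le.1 (h6.trans h3)).1
  rw [Complex.neg_re]
  linarith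

variable (K : Type) [Field K] [NumberField K]

/-- the sum over the primes of degree one diverges -/
theorem not_summable_spf : ¬ Summable (fun p : Nat.Primes => (spf K p 1 : ℝ) / (p : ℕ)) := by
  intro hsum
  obtain ⟨h, h0, h1, hmul, hle, hz, hk⟩ := Pool.Agent.H76.HK.ep K
  have hprimes : Summable (fun p : Nat.Primes => ((p : ℕ) : ℝ) ^ (-2 : ℝ)) :=
    Nat.Primes.summable_rpow.2 (by norm_num)
  have hb : Summable (fun p : Nat.Primes => (spf K p 1 : ℝ) / (p : ℕ) +
      (Module.finrank ℚ K : ℝ) * ((p : ℕ) : ℝ) ^ (-2 : ℝ)) := hsum.add (hprimes.mul_left _)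
  set B : ℝ := ∑' p : Nat.Primes, ((spf K p 1 : ℝ) / (p : ℕ) +
      (Module.finrank ℚ K : ℝ) * ((p : ℕ) : ℝ) ^ (-2 : ℝ)) with hB
  have key : ∀ s : ℝ, 1 < s → ‖dedekindZeta K s‖ ≤ Real.exp B := by
    intro s hs
    have hs0 : s ≠ 0 := by linarith
    let f : Fin (Module.finrank ℚ K) → ℕ →*₀ ℂ := fun j =>
      { toFun := fun m => h j m * (m : ℂ) ^ (-(s : ℂ))
        map_zero' := by rw [h0, zero_mul]
        map_one' := by simp [h1]
        map_mul' := fun a b => by
          rw [hmul, Nat.cast_mul, Complex.natCast_mul_natCast_cpow]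
          ring }
    have hfa : ∀ j m, f j m = h j m * (m : ℂ) ^ (-(s : ℂ)) := fun j m => rfl
    have hreal : ∀ m : ℕ, ((m : ℂ) ^ (-(s : ℂ))) = (((m : ℝ) ^ (-s) : ℝ) : ℂ) := by
      intro m
      rw [Complex.ofReal_cpow (Nat.cast_nonneg m)]
      push_cast
      rfl
    have hfn : ∀ j m, ‖f j m‖ ≤ (m : ℝ) ^ (-s) := by
      intro j m
      rw [hfa, norm_mul, hreal, Complex.norm_real, Real.norm_of_nonneg (by positivity)]
      calc ‖h j m‖ * (m : ℝ) ^ (-s) ≤ 1 * (m : ℝ) ^ (-s) := by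
            gcongr
            exact hle j m
        _ = _ := one_mul _
    have hf : ∀ j, Summable (fun m => ‖f j m‖) := fun j =>
      Summable.of_nonneg_of_le (fun _ => norm_nonneg _) (hfn j)
        (Real.summable_nat_rpow.2 (by linarith))
    have he : ∀ j, Complex.exp (∑' p : Nat.Primes, -Complex.log (1 - f j p)) = ∑' m, f j m :=
      fun j => EulerProduct.exp_tsum_primes_log_eq_tsum (hf j)
    have hls : ∀ j, Summable (fun p : Nat.Primes => -Complex.log (1 - f j p)) := fun j =>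
      ((hf j).of_norm.clog_one_sub.neg).subtype _
    rw [hz s (by simpa using hs)]
    have h2 : ∏ j, ∑' m : ℕ, h j m * (m : ℂ) ^ (-(s : ℂ)) =
        Complex.exp (∑' p : Nat.Primes, ∑ j, -Complex.log (1 - f j p)) := by
      rw [Summable.tsum_finsetSum fun j _ => hls j, Complex.exp_sum]
      exact Finset.prod_congr rfl fun j _ => (he j).symm
    rw [h2, Complex.norm_exp]
    apply Real.exp_le_exp.2
    have hsum2 : Summable (fun p : Nat.Primes => ∑ j, -Complex.log (1 - f j p)) :=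
      summable_sum fun j _ => hls j
    rw [Complex.re_tsum hsum2, hB]
    refine Summable.tsum_le_tsum (fun p => ?_) (Complex.hasSum_re hsum2.hasSum).summable hb
    have hp2 : (2 : ℝ) ≤ ((p : ℕ) : ℝ) := by exact_mod_cast p.2.two_le
    have hp1 : ((p : ℕ) : ℝ) ^ (-s) ≤ ((p : ℕ) : ℝ)⁻¹ := by
      rw [← Real.rpow_neg_one]
      exact Real.rpow_le_rpow_of_exponent_le (by linarith) (by linarith)
    have hp3 : ((p : ℕ) : ℝ)⁻¹ ≤ 1 / 2 := by
      rw [one_div]
      exact inv_anti₀ (by norm_num) hp2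
    have hp4 : 0 ≤ ((p : ℕ) : ℝ) ^ (-s) := by positivity
    rw [Complex.re_sum]
    calc ∑ j, (-Complex.log (1 - f j p)).re ≤ ∑ j, ((f j p).re + ‖f j p‖ ^ 2) :=
          Finset.sum_le_sum fun j _ => re_log_le ((hfn j p).trans (hp1.trans hp3))
      _ = (∑ j, f j p).re + ∑ j, ‖f j p‖ ^ 2 := by
          rw [Finset.sum_add_distrib, Complex.re_sum]
      _ ≤ (spf K p 1 : ℝ) / (p : ℕ) +
          (Module.finrank ℚ K : ℝ) * ((p : ℕ) : ℝ) ^ (-2 : ℝ) := by
          apply add_le_add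
          · have h3 : ∑ j, f j p = (((spf K p 1 : ℝ) * ((p : ℕ) : ℝ) ^ (-s) : ℝ) : ℂ) := by
              have h4 := hk p 1 p.2 le_rfl
              simp only [pow_one] at h4
              simp only [hfa]
              rw [← Finset.sum_mul, h4, hreal]
              push_cast
              ring
            rw [h3, Complex.ofReal_re, div_eq_mul_inv]
            gcongr
          · calc ∑ j, ‖f j p‖ ^ 2 ≤ ∑ _j : Fin (Module.finrank ℚ K), ((p : ℕ) : ℝ) ^ (-2 : ℝ) := by
                  refine Finset.sum_le_sum fun j _ => ?_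
                  have h5 : ‖f j p‖ ≤ ((p : ℕ) : ℝ)⁻¹ := (hfn j p).trans hp1
                  have h6 : ((p : ℕ) : ℝ) ^ (-2 : ℝ) = (((p : ℕ) : ℝ)⁻¹) ^ 2 := by
                    rw [Real.rpow_neg (by linarith)]
                    norm_num
                  rw [h6]
                  gcongr
              _ = _ := by
                  rw [Finset.sum_const, Finset.card_univ, Fintype.card_fin, nsmul_eq_mul]
  have ht := tendsto_sub_one_mul_dedekindZeta_nhdsGT K
  have ht2 : Tendsto (fun s : ℝ => ((s : ℂ) - 1) * dedekindZeta K s) (𝓝[>] 1) (𝓝 0) := by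
    rw [tendsto_zero_iff_norm_tendsto_zero]
    have h3 : Tendsto (fun s : ℝ => (s - 1) * Real.exp B) (𝓝[>] 1) (𝓝 0) := by
      have h4 : Tendsto (fun s : ℝ => (s - 1) * Real.exp B) (𝓝 1) (𝓝 ((1 - 1) * Real.exp B)) :=
        ((continuous_id.sub continuous_const).mul continuous_const).tendsto 1
      rw [sub_self, zero_mul] at h4
      exact h4.mono_left nhdsWithin_le_nhds
    refine squeeze_zero' (Eventually.of_forall fun _ => norm_nonneg _) ?_ h3
    filter_upwards [self_mem_nhdsWithin] with s hs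
    have hs' : 1 < s := hs
    rw [norm_mul]
    have h5 : ‖(s : ℂ) - 1‖ = s - 1 := by
      have : (s : ℂ) - 1 = ((s - 1 : ℝ) : ℂ) := by push_cast; rfl
      rw [this, Complex.norm_real, Real.norm_of_nonneg (by linarith)]
    rw [h5]
    exact mul_le_mul_of_nonneg_left (key s hs') (by linarith)
  have h6 := tendsto_nhds_unique ht ht2
  exact dedekindZeta_residue_ne_zero K (by exact_mod_cast h6)

/-- at most the degree of the field -/
lemma spf_le (p : ℕ) (hp : p.Prime) : (spf K p 1 : ℝ) ≤ Module.finrank ℚ K := by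
  obtain ⟨h, _, _, _, hle, _, hk⟩ := Pool.Agent.H76.HK.ep K
  have h1 := hk p 1 hp le_rfl
  simp only [pow_one] at h1
  have h2 : ‖(spf K p 1 : ℂ)‖ ≤ Module.finrank ℚ K := by
    rw [← h1]
    calc ‖∑ j, h j p‖ ≤ ∑ j, ‖h j p‖ := norm_sum_le _ _
      _ ≤ ∑ _j : Fin (Module.finrank ℚ K), (1 : ℝ) := Finset.sum_le_sum fun j _ => hle j p
      _ = _ := by simp
  simpa using h2

omit [NumberField K] in
lemma dvd_of_mem {p : ℕ} (hp : p.Prime) {P : Ideal (𝓞 K)} (hP : P.IsPrime)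
    (hpP : (p : 𝓞 K) ∈ P) {a : ℤ} (ha : (a : 𝓞 K) ∈ P) : (p : ℤ) ∣ a := by
  by_contra hn
  have h1 : IsCoprime (p : ℤ) a := by
    rw [(Nat.prime_iff_prime_int.1 hp).coprime_iff_not_dvd]
    exact hn
  obtain ⟨u, v, huv⟩ := h1
  apply hP.ne_top
  rw [Ideal.eq_top_iff_one]
  have h7 : (1 : 𝓞 K) = (u : 𝓞 K) * (p : 𝓞 K) + (v : 𝓞 K) * (a : 𝓞 K) := by
    have := congrArg (Int.cast : ℤ → 𝓞 K) huv
    push_cast at this
    exact this.symm
  rw [h7]
  exact P.add_mem (P.mul_mem_left _ hpP) (P.mul_mem_left _ ha)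

/-- a prime of degree one gives a root -/
theorem root_of_spf (g : ℤ[X]) (D : ℤ) (x : 𝓞 K)
    (hx : eval₂ (Int.castRingHom (𝓞 K)) x (g.scaleRoots D) = 0) (p : ℕ) (hp : p.Prime)
    (hD : ¬ (p : ℤ) ∣ D) (hs : spf K p 1 ≠ 0) : ∃ m : ℕ, (p : ℤ) ∣ g.eval (m : ℤ) := by
  obtain ⟨S, hS1, hS2, -, hS4⟩ := Pool.Agent.H76.HK.primes_fin K p hp
  rw [← hS4 1] at hs
  obtain ⟨P, hPS, hP0⟩ := Finset.exists_ne_zero_of_sum_ne_zero hs
  have hdeg : P.inertiaDeg ℤ = 1 := by
    by_contra hne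
    rw [if_neg (by rwa [Nat.dvd_one])] at hP0
    exact hP0 rfl
  obtain ⟨hPp, hPb, hpP⟩ := (hS1 P).1 hPS
  have hN : Ideal.absNorm P = p := by
    rw [← (hS2 P hPS).2, hdeg, pow_one]
  have hcard : Nat.card (𝓞 K ⧸ P) = p := by
    rw [← hN, Ideal.absNorm_apply]
    rfl
  have hne1 : (1 : 𝓞 K ⧸ P) ≠ 0 := by
    intro h
    apply hPp.ne_top
    rw [Ideal.eq_top_iff_one, ← Ideal.Quotient.eq_zero_iff_mem]
    exact h
  obtain ⟨n, hn⟩ : ∃ n : ℤ, ((n : ℤ) : 𝓞 K ⧸ P) = Ideal.Quotient.mk P x := by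
    have : Fact p.Prime := ⟨hp⟩
    have h1 : Ideal.Quotient.mk P x ∈ AddSubgroup.zmultiples (1 : 𝓞 K ⧸ P) :=
      mem_zmultiples_of_prime_card hcard hne1
    obtain ⟨n, hn⟩ := AddSubgroup.mem_zmultiples_iff.1 h1
    exact ⟨n, by rw [← hn, zsmul_one]⟩
  obtain ⟨m, hm⟩ : ∃ m : ℕ, (p : ℤ) ∣ D * m - n := by
    have h1 : IsCoprime (p : ℤ) D := by
      rw [(Nat.prime_iff_prime_int.1 hp).coprime_iff_not_dvd]
      exact hD
    obtain ⟨u, v, huv⟩ := h1
    refine ⟨((v * n) % p).toNat, ?_⟩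
    have hp0 : (p : ℤ) ≠ 0 := by exact_mod_cast hp.ne_zero
    rw [Int.toNat_of_nonneg (Int.emod_nonneg _ hp0)]
    have h2 : (v * n) % p = v * n - p * (v * n / p) := by
      have := Int.emod_add_mul_ediv (v * n) p
      linarith
    rw [h2]
    refine ⟨-(u * n) - D * (v * n / p), ?_⟩
    have h3 : u * p * n + v * D * n = n := by
      rw [← add_mul, huv, one_mul]
    linear_combination h3
  refine ⟨m, ?_⟩
  have hpz : ((p : ℤ) : 𝓞 K ⧸ P) = 0 := by
    have := Ideal.Quotient.eq_zero_iff_mem.2 hpP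
    simpa using this
  have hmn : (D : 𝓞 K ⧸ P) * ((m : ℤ) : 𝓞 K ⧸ P) = Ideal.Quotient.mk P x := by
    rw [← hn]
    obtain ⟨c, hc⟩ := hm
    have h3 : D * m = n + p * c := by linarith
    have h4 := congrArg (Int.cast : ℤ → 𝓞 K ⧸ P) h3
    rw [Int.cast_mul, Int.cast_add, Int.cast_mul, hpz, zero_mul, add_zero] at h4
    exact h4
  have hz : eval₂ (Int.castRingHom (𝓞 K ⧸ P)) (Ideal.Quotient.mk P x) (g.scaleRoots D) = 0 := by
    have h5 := congrArg (Ideal.Quotient.mk P) hx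
    rw [hom_eval₂, map_zero] at h5
    rw [← h5]
    congr 1
  have hz2 := scaleRoots_eval₂_mul (p := g) (Int.castRingHom (𝓞 K ⧸ P)) ((m : ℤ) : 𝓞 K ⧸ P) D
  rw [eq_intCast, hmn, hz] at hz2
  have hdom : IsDomain (𝓞 K ⧸ P) := Ideal.Quotient.isDomain P
  have hD0 : (D : 𝓞 K ⧸ P) ≠ 0 := by
    intro h
    apply hD
    apply dvd_of_mem K hp hPp hpP
    rw [← Ideal.Quotient.eq_zero_iff_mem]
    simpa using h
  have hz3 : eval₂ (Int.castRingHom (𝓞 K ⧸ P)) ((m : ℤ) : 𝓞 K ⧸ P) g = 0 := by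
    rcases mul_eq_zero.1 hz2.symm with h | h
    · exact absurd h (pow_ne_zero _ hD0)
    · exact h
  have h6 : eval₂ (Int.castRingHom (𝓞 K ⧸ P)) (Int.castRingHom (𝓞 K ⧸ P) (m : ℤ)) g =
      Int.castRingHom (𝓞 K ⧸ P) (g.eval (m : ℤ)) := eval₂_at_apply _ _
  rw [eq_intCast, hz3] at h6
  apply dvd_of_mem K hp hPp hpP
  rw [← Ideal.Quotient.eq_zero_iff_mem]
  simpa using h6.symm

/-- the theorem for a number field with a root -/
theorem core (g : ℤ[X]) (θ : K) (hrootz : eval₂ (Int.castRingHom K) θ g = 0)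
    (hsum : Summable (fun p : {p : ℕ // p.Prime ∧ ∃ m : ℕ, (p : ℤ) ∣ g.eval (m : ℤ)} =>
      (1 : ℝ) / p.1)) : False := by
  classical
  have halg : IsAlgebraic ℤ θ :=
    (IsFractionRing.isAlgebraic_iff ℤ ℚ K).2 (Algebra.IsAlgebraic.isAlgebraic θ)
  obtain ⟨D, hD0, hDi⟩ := halg.exists_integral_multiple
  let x : 𝓞 K := ⟨D • θ, hDi⟩
  have hx : eval₂ (Int.castRingHom (𝓞 K)) x (g.scaleRoots D) = 0 := by
    apply RingOfIntegers.coe_injective
    rw [map_zero, hom_eval₂]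
    have h1 : (algebraMap (𝓞 K) K) x = (Int.castRingHom K) D * θ := by
      change D • θ = _
      rw [zsmul_eq_mul]
      rfl
    have h2 : (algebraMap (𝓞 K) K).comp (Int.castRingHom (𝓞 K)) = Int.castRingHom K :=
      RingHom.ext_int _ _
    rw [h1, h2, scaleRoots_eval₂_mul, hrootz, mul_zero]
  apply not_summable_spf K
  -- comparison
  have hS : Summable (fun p : Nat.Primes =>
      if ∃ m : ℕ, ((p : ℕ) : ℤ) ∣ g.eval (m : ℤ) then (1 : ℝ) / (p : ℕ) else 0) := by
    let e : {p : ℕ // p.Prime ∧ ∃ m : ℕ, (p : ℤ) ∣ g.eval (m : ℤ)} → Nat.Primes :=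
      fun p => ⟨p.1, p.2.1⟩
    have he : Function.Injective e := fun a b hab => by
      apply Subtype.ext
      exact congrArg (fun q : Nat.Primes => (q : ℕ)) hab
    rw [← he.summable_iff]
    · refine hsum.congr fun p => ?_
      change (1 : ℝ) / p.1 = if ∃ m : ℕ, ((p.1 : ℕ) : ℤ) ∣ g.eval (m : ℤ) then (1 : ℝ) / p.1 else 0
      rw [if_pos p.2.2]
    · intro p hp
      rw [if_neg]
      intro h
      exact hp ⟨⟨p, p.2, h⟩, rfl⟩
  have hT : Summable (fun p : Nat.Primes =>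
      if ((p : ℕ) : ℤ) ∣ D then (1 : ℝ) / (p : ℕ) else 0) := by
    apply summable_of_hasFiniteSupport
    have hfin : (Function.support (fun p : Nat.Primes =>
      if ((p : ℕ) : ℤ) ∣ D then (1 : ℝ) / (p : ℕ) else 0)) ⊆
        (fun p : Nat.Primes => (p : ℕ)) ⁻¹' (Set.Iic D.natAbs) := by
      intro p hp
      rw [Function.mem_support] at hp
      have h1 : ((p : ℕ) : ℤ) ∣ D := by
        by_contra h
        rw [if_neg h] at hp
        exact hp rfl
      change (p : ℕ) ≤ D.natAbs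
      exact Nat.le_of_dvd (Int.natAbs_pos.2 hD0) (Int.natCast_dvd.1 h1)
    exact ((Set.finite_Iic D.natAbs).preimage (Set.injOn_of_injective Subtype.val_injective)).subset
      hfin
  refine Summable.of_nonneg_of_le (fun p => by positivity) (fun p => ?_)
    ((hS.add hT).mul_left (Module.finrank ℚ K : ℝ))
  have hp1 : 0 ≤ (1 : ℝ) / (p : ℕ) := by positivity
  by_cases hz : spf K p 1 = 0
  · rw [hz, Nat.cast_zero, zero_div]
    apply mul_nonneg (Nat.cast_nonneg _)
    apply add_nonneg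
    · split_ifs <;> simp
    · split_ifs <;> simp
  · have h1 : (1 : ℝ) / (p : ℕ) ≤
        (if ∃ m : ℕ, ((p : ℕ) : ℤ) ∣ g.eval (m : ℤ) then (1 : ℝ) / (p : ℕ) else 0) +
        (if ((p : ℕ) : ℤ) ∣ D then (1 : ℝ) / (p : ℕ) else 0) := by
      by_cases hpD : ((p : ℕ) : ℤ) ∣ D
      · rw [if_pos hpD]
        split_ifs <;> linarith
      · have h2 := root_of_spf K g D x hx p p.2 hpD hz
        rw [if_pos h2, if_neg hpD, add_zero]
    calc (spf K p 1 : ℝ) / (p : ℕ) = (spf K p 1 : ℝ) * ((1 : ℝ) / (p : ℕ)) := by ring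
      _ ≤ _ := mul_le_mul (spf_le K p p.2) h1 hp1 (Nat.cast_nonneg _)

end

/-- module RO -/
theorem ro : Pool.Agent.H23.GA.T_RO := by
  intro g hg hsum
  have hinj : Function.Injective (Int.castRingHom ℚ) := (Int.castRingHom ℚ).injective_int
  have hdeg : (g.map (Int.castRingHom ℚ)).natDegree = g.natDegree :=
    natDegree_map_eq_of_injective hinj g
  obtain ⟨gq, hgq⟩ : ∃ gq : ℚ[X], gq = g.map (Int.castRingHom ℚ) := ⟨_, rfl⟩
  rw [← hgq] at hdeg
  have hK : NumberField (SplittingField gq) := { }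
  have hdeg2 : (gq.map (algebraMap ℚ (SplittingField gq))).degree ≠ 0 := by
    rw [degree_map]
    intro h
    have h1 := natDegree_eq_of_degree_eq_some h
    have h2 : gq.natDegree = 0 := h1
    omega
  have hroot : eval₂ (algebraMap ℚ (SplittingField gq))
      (rootOfSplits (SplittingField.splits gq) hdeg2) gq = 0 := by
    have := eval_rootOfSplits (SplittingField.splits gq) hdeg2
    rwa [eval_map] at this
  refine core (SplittingField gq) g (rootOfSplits (SplittingField.splits gq) hdeg2) ?_ hsum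
  have h3 : eval₂ (algebraMap ℚ (SplittingField gq))
      (rootOfSplits (SplittingField.splits gq) hdeg2) (g.map (Int.castRingHom ℚ)) = 0 := by
    rw [← hgq]
    exact hroot
  rw [eval₂_map] at h3
  rw [← h3]
  congr 1

end Pool.Agent.H22.GA
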